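import Pool.Agent.V1137.SHDCube
import Pool.Agent.V1137.PixleyRoy

open Filter Topology Set

namespace Pool.Agent.Results.MP_3a5480_gt.PixleyRoySHD

open Pool.Agent.V1137.SHDCube Pool.Agent.V1137.PixleyRoy

/-- A sequence without convergent subsequences has, for each finite set `H`, a subsequence which
avoids some open set containing `H`. -/
theorem avoid {X : Type*} [TopologicalSpace X] (x : ℕ → X)
    (hx : ∀ φ : ℕ → ℕ, StrictMono φ → ∀ a : X, ¬ Tendsto (fun k => x (φ k)) atTop (𝓝 a))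
    (H : Set X) (hH : H.Finite) :
    ∃ (ψ : ℕ → ℕ) (V : Set X), StrictMono ψ ∧ IsOpen V ∧ H ⊆ V ∧ ∀ k, x (ψ k) ∉ V := by
  induction H, hH using Set.Finite.induction_on with
  | empty => exact ⟨id, ∅, strictMono_id, isOpen_empty, Set.Subset.rfl, fun _ h => h⟩
  | @insert h H _ _ ih =>
    obtain ⟨ψ, V, hψ, hV, hHV, hav⟩ := ih
    have h1 := hx ψ hψ h
    rw [tendsto_nhds] at h1
    push Not at h1
    obtain ⟨W, hW, hhW, hnot⟩ := h1
    have h2 : ∃ᶠ k in atTop, x (ψ k) ∉ W := by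
      intro hcon
      apply hnot
      filter_upwards [hcon] with k hk
      exact not_not.1 hk
    obtain ⟨θ, hθ, hθW⟩ := extraction_of_frequently_atTop h2
    refine ⟨ψ ∘ θ, V ∪ W, hψ.comp hθ, hV.union hW, ?_, ?_⟩
    · exact Set.insert_subset (Or.inr hhW) (hHV.trans Set.subset_union_left)
    · rintro k (hk | hk)
      · exact hav _ hk
      · exact hθW k hk

/-- The Pixley-Roy hyperspace of a selectively highly divergent space is selectively highly
divergent. -/
theorem result {X : Type*} [TopologicalSpace X] (h : SHD X) : SHD (PR X) := by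
  intro 𝒰 h𝒰
  choose F hF using fun n => (h𝒰 n).2
  choose V hV hFV hbox using fun n => (isOpen_iff (𝒰 n)).1 (h𝒰 n).1 (F n) (hF n)
  obtain ⟨x, hxV, hx⟩ := h V (fun n => ⟨hV n, (F n).2.2.mono (hFV n)⟩)
  refine ⟨fun n => add (F n) (x n), fun n => hbox n (add_mem_box _ _ (hFV n) _ (hxV n)), ?_⟩
  intro φ hφ G hG
  obtain ⟨ψ, W, hψ, hW, hGW, hav⟩ := avoid (fun k => x (φ k))
    (fun θ hθ a => hx (φ ∘ θ) (hφ.comp hθ) a) G.1 G.2.1
  have h1 := eventually_of_tendsto hG W hW hGW
  have h2 := hψ.tendsto_atTop.eventually h1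
  obtain ⟨k, hk⟩ := h2.exists
  exact hav k (hk.2 (Set.mem_insert _ _))

end Pool.Agent.Results.MP_3a5480_gt.PixleyRoySHD
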